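import Mathlib
import Pool.Agent.H59.MulTable

set_option autoImplicit false

namespace Pool.Agent.Results.MP_c34da8_nt.TwoClasses

open Finset Filter

lemma step (f : ℕ → ℝ) (hf : Tendsto f atTop atTop) (L k : ℕ) :
    ∃ T : ℕ, L + 1 < T ∧ (∀ n, T ^ 2 ≤ n → (L : ℝ) ≤ f n) ∧
      (((range (2 * (k + 2) * T) ×ˢ range (2 * (k + 2) * T)).image
        (fun y : ℕ × ℕ => y.1 * y.2)).card : ℝ) ≤ (T : ℝ) ^ 2 := by
  obtain ⟨D, hD, h⟩ := Pool.Agent.H59.MulTable.table (1 / (2 * ((k : ℝ) + 2)) ^ 2)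
    (by positivity)
  obtain ⟨n0, hn0⟩ := eventually_atTop.1 (hf.eventually_ge_atTop (L : ℝ))
  refine ⟨D * (L + n0 + 2), by nlinarith, fun n hn => hn0 n ?_, ?_⟩
  · have : n0 ≤ D * (L + n0 + 2) := by nlinarith
    nlinarith
  · refine (h _ (Dvd.dvd.mul_left (Dvd.intro _ rfl) _)).trans_eq ?_
    push_cast
    field_simp

/-- For every `f` tending to infinity there is a partition of the positive integers into two
nonempty classes such that the set of monochromatic products `n = a * a'` with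
`min a a' > f n` has lower asymptotic density zero. -/
theorem result (f : ℕ → ℝ) (hf : Tendsto f atTop atTop) :
    ∃ A₁ A₂ : Set ℕ, Disjoint A₁ A₂ ∧ A₁ ∪ A₂ = {n | 1 ≤ n} ∧ A₁.Nonempty ∧ A₂.Nonempty ∧
      Filter.liminf (fun M : ℕ =>
        (({n : ℕ | ∃ a a' : ℕ, n = a * a' ∧ ((a ∈ A₁ ∧ a' ∈ A₁) ∨ (a ∈ A₂ ∧ a' ∈ A₂)) ∧
            f n < ((min a a' : ℕ) : ℝ)} ∩ Set.Icc 1 M).ncard : ℝ) / M) atTop = 0 := by
  classical
  choose g hg1 hg2 hg3 using step f hf
  obtain ⟨L, hL⟩ : ∃ L : ℕ → ℕ, ∀ j, L (j + 1) = (j + 2) * (g (L j) j) ^ 2 :=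
    ⟨fun j => Nat.rec 0 (fun j l => (j + 2) * (g l j) ^ 2) j, fun j => rfl⟩
  set T : ℕ → ℕ := fun j => g (L j) j with hT
  have hLT : ∀ j, L j + 1 < T j := fun j => hg1 _ _
  have hTL : ∀ j, T j < L (j + 1) := fun j => by
    rw [hL]
    have := hLT j
    change T j < (j + 2) * (T j) ^ 2
    nlinarith
  have hmono : StrictMono L := strictMono_nat_of_lt_succ (fun j => by
    have := hLT j; have := hTL j; omega)
  set B : Set ℕ := {a | ∃ j, T j ≤ a ∧ a ≤ L (j + 1)} with hB
  have hred : ∀ j a, L j < a → a < T j → a ∉ B := by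
    rintro j a h1 h2 ⟨i, h3, h4⟩
    rcases lt_trichotomy i j with h | h | h
    · have : L (i + 1) ≤ L j := hmono.monotone h
      omega
    · subst h; omega
    · have : L (j + 1) ≤ L i := hmono.monotone h
      have := hLT i
      have := hTL j
      omega
  refine ⟨{n | 1 ≤ n} \ B, B, Set.disjoint_sdiff_left, ?_, ⟨L 0 + 1, ?_, ?_⟩, ⟨T 0, 0, le_rfl,
    (hTL 0).le⟩, ?_⟩
  · rw [Set.sdiff_union_self, Set.union_eq_left]
    rintro a ⟨j, h, _⟩
    have := hLT j
    change 1 ≤ a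
    omega
  · change 1 ≤ L 0 + 1
    omega
  · exact hred 0 _ (by omega) (hLT 0)
  set D : Set ℕ := {n : ℕ | ∃ a a' : ℕ, n = a * a' ∧
    ((a ∈ {n | 1 ≤ n} \ B ∧ a' ∈ {n | 1 ≤ n} \ B) ∨ (a ∈ B ∧ a' ∈ B)) ∧
      f n < ((min a a' : ℕ) : ℝ)} with hD
  have key : ∀ j, ((D ∩ Set.Icc 1 (L (j + 1))).ncard : ℝ) / (L (j + 1) : ℕ) ≤ 2 / (j + 2) := by
    intro j
    have hsub : D ∩ Set.Icc 1 (L (j + 1)) ⊆ ↑(range (T j ^ 2) ∪
        (range (2 * (j + 2) * T j) ×ˢ range (2 * (j + 2) * T j)).image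
          (fun y : ℕ × ℕ => y.1 * y.2)) := by
      rintro n ⟨⟨a, a', rfl, hc, hmin⟩, h1, h2⟩
      rw [Finset.mem_coe, Finset.mem_union]
      by_cases hn : a * a' < T j ^ 2
      · exact Or.inl (Finset.mem_range.2 hn)
      right
      have h3 : ((L j : ℕ) : ℝ) ≤ f (a * a') := hg2 _ _ _ (not_lt.1 hn)
      have h4 : L j < min a a' := by exact_mod_cast h3.trans_lt hmin
      have h5 : L j < a := lt_of_lt_of_le h4 (min_le_left _ _)
      have h6 : L j < a' := lt_of_lt_of_le h4 (min_le_right _ _)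
      have h7 : a ≤ L (j + 1) := le_trans (Nat.le_mul_of_pos_right _ (by omega)) h2
      have h8 : a' ≤ L (j + 1) := le_trans (Nat.le_mul_of_pos_left _ (by omega)) h2
      have hT0 : 0 < T j := by have := hLT j; omega
      rcases hc with ⟨ha, ha'⟩ | ⟨ha, ha'⟩
      · have b1 : a < T j := by
          by_contra h
          exact ha.2 ⟨j, not_lt.1 h, h7⟩
        have b2 : a' < T j := by
          by_contra h
          exact ha'.2 ⟨j, not_lt.1 h, h8⟩
        exact absurd (by rw [sq]; exact Nat.mul_lt_mul'' b1 b2) hn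
      · have b1 : T j ≤ a := by
          by_contra h
          exact hred j a h5 (not_le.1 h) ha
        have b2 : T j ≤ a' := by
          by_contra h
          exact hred j a' h6 (not_le.1 h) ha'
        have h9 : a * a' ≤ (j + 2) * T j * T j := by
          rw [hL] at h2
          exact h2.trans_eq (by ring)
        have c1 : a ≤ (j + 2) * T j :=
          Nat.le_of_mul_le_mul_right ((Nat.mul_le_mul_left a b2).trans h9) hT0
        have c2 : a' ≤ (j + 2) * T j := by
          rw [mul_comm] at h9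
          exact Nat.le_of_mul_le_mul_right ((Nat.mul_le_mul_left a' b1).trans h9) hT0
        have c3 : (j + 2) * T j < 2 * (j + 2) * T j := by nlinarith
        exact Finset.mem_image.2 ⟨(a, a'), Finset.mem_product.2
          ⟨Finset.mem_range.2 (by omega), Finset.mem_range.2 (by omega)⟩, rfl⟩
    have h1 := (Set.ncard_le_ncard hsub (Finset.finite_toSet _))
    rw [Set.ncard_coe_finset] at h1
    have h2 := h1.trans (Finset.card_union_le _ _)
    rw [Finset.card_range] at h2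
    have h3 := hg3 (L j) j
    have h4 : ((D ∩ Set.Icc 1 (L (j + 1))).ncard : ℝ) ≤ 2 * (T j : ℝ) ^ 2 := by
      have h5 : ((D ∩ Set.Icc 1 (L (j + 1))).ncard : ℝ) ≤ (T j : ℝ) ^ 2 +
        ((range (2 * (j + 2) * T j) ×ˢ range (2 * (j + 2) * T j)).image
          (fun y : ℕ × ℕ => y.1 * y.2)).card := by exact_mod_cast h2
      linarith
    have hT0 : (0 : ℝ) < T j := by
      have := hLT j
      exact_mod_cast (by omega : 0 < T j)
    have e : ((L (j + 1) : ℕ) : ℝ) = (j + 2) * (T j : ℝ) ^ 2 := by rw [hL]; push_cast; rfl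
    rw [e, div_le_div_iff₀ (by positivity) (by positivity)]
    have : (0 : ℝ) ≤ j + 2 := by positivity
    nlinarith
  have hnn : ∀ M : ℕ, (0 : ℝ) ≤ ((D ∩ Set.Icc 1 M).ncard : ℝ) / M := fun M => by positivity
  have hfreq : ∀ ε : ℝ, 0 < ε → ∃ᶠ M : ℕ in atTop, ((D ∩ Set.Icc 1 M).ncard : ℝ) / M ≤ ε := by
    intro ε hε
    rw [frequently_atTop]
    intro a
    obtain ⟨j, hj⟩ := exists_nat_ge (max (a : ℝ) (2 / ε))
    have h1 : a ≤ j := by exact_mod_cast (le_max_left _ _).trans hj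
    have h2 : 2 / ε ≤ j := (le_max_right _ _).trans hj
    refine ⟨L (j + 1), ?_, (key j).trans ?_⟩
    · have := hmono.id_le (j + 1)
      simp only [id] at this
      omega
    · rw [div_le_iff₀ hε] at h2
      rw [div_le_iff₀ (by positivity)]
      nlinarith
  apply le_antisymm
  · refine le_of_forall_pos_le_add (fun ε hε => ?_)
    rw [zero_add]
    exact Filter.liminf_le_of_frequently_le (hfreq ε hε)
      (Filter.isBoundedUnder_of ⟨0, fun M => hnn M⟩)
  · exact Filter.le_liminf_of_le (Filter.IsCoboundedUnder.of_frequently_le (hfreq 1 one_pos))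
      (Filter.Eventually.of_forall hnn)

end Pool.Agent.Results.MP_c34da8_nt.TwoClasses
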